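import Pool.Agent.W42.RG.Defs2

set_option autoImplicit false
set_option linter.unusedSectionVars false
set_option linter.unusedVariables false

namespace Pool.Agent.W191.LY

open Finset Filter Topology MeasureTheory Pool.Agent.W42.RN Pool.Agent.W42.RL Pool.Agent.W42.RG

/-- dropping the last sets -/
theorem mixOn_drop {X : Type} [MeasurableSpace X] {μ : Measure X} [IsProbabilityMeasure μ]
    {T : X → X} {Q : Set X → Prop} (hQ : Q Set.univ) {k k' : ℕ} (hk : k' ≤ k)
    (hm : MixOn μ T Q k) : MixOn μ T Q k' := by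
  intro A hA ε hε
  obtain ⟨N, hN⟩ := hm (fun i => if i ≤ k' then A i else Set.univ) (by
    intro i
    by_cases h : i ≤ k'
    · simp only [h, if_true]; exact hA i
    · simp only [h, if_false]; exact ⟨MeasurableSet.univ, hQ⟩) ε hε
  refine ⟨N, fun m hmN => ?_⟩
  have h1 := hN (fun j => if j < k' then m j else N) (by
    intro j _
    by_cases h : j < k'
    · simp only [h, if_true]; exact hmN j h
    · simp only [h, if_false]; exact le_rfl)
  have hsum : ∀ i ≤ k', ∑ j ∈ range i, (if j < k' then m j else N) = ∑ j ∈ range i, m j := by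
    intro i hi
    refine sum_congr rfl fun j hj => ?_
    rw [if_pos (lt_of_lt_of_le (mem_range.1 hj) hi)]
  have e1 : (⋂ i ∈ range (k + 1), T^[∑ j ∈ range i, (if j < k' then m j else N)] ⁻¹'
      (if i ≤ k' then A i else Set.univ)) = ⋂ i ∈ range (k' + 1), T^[∑ j ∈ range i, m j] ⁻¹' A i := by
    ext p
    simp only [Set.mem_iInter, mem_range]
    constructor
    · intro h i hi
      have := h i (by omega)
      rw [if_pos (by omega), hsum i (by omega)] at this
      exact this
    · intro h i hi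
      by_cases hik : i ≤ k'
      · rw [if_pos hik, hsum i hik]; exact h i (by omega)
      · rw [if_neg hik]; trivial
  have e2 : ∏ i ∈ range (k + 1), μ.real (if i ≤ k' then A i else Set.univ) =
      ∏ i ∈ range (k' + 1), μ.real (A i) := by
    have e3 : ∏ i ∈ range (k' + 1), μ.real (A i) =
        ∏ i ∈ range (k' + 1), μ.real (if i ≤ k' then A i else Set.univ) := by
      refine prod_congr rfl fun i hi => ?_
      rw [if_pos (by have := mem_range.1 hi; omega)]
    rw [e3]
    symm
    apply prod_subset (range_subset_range.2 (by omega))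
    intro i _ hi
    rw [mem_range, not_lt] at hi
    rw [if_neg (by omega), probReal_univ]
  rw [e1, e2] at h1
  exact h1

/-- measurable sets invariant under the maps `S a` -/
def mS {X : Type} [MeasurableSpace X] {ι : Type} (μ : Measure X) (S : ι → X → X) :
    MeasurableSpace X where
  MeasurableSet' A := MeasurableSet A ∧ ∀ a, S a ⁻¹' A =ᵐ[μ] A
  measurableSet_empty := ⟨MeasurableSet.empty, fun a => by simp⟩
  measurableSet_compl A h := ⟨h.1.compl, fun a => (h.2 a).compl⟩
  measurableSet_iUnion A h := ⟨MeasurableSet.iUnion fun i => (h i).1, fun a => by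
    rw [Set.preimage_iUnion]
    exact Filter.EventuallyEq.countable_iUnion fun i => (h i).2 a⟩

/-- approximation by simple functions -/
theorem approx {X : Type} [MeasurableSpace X] {f : X → ℂ} (hfB : Bd f) (ε : ℝ) (hε : 0 < ε) :
    ∃ g ∈ Submodule.span ℂ {g : X → ℂ | ∃ A, MeasurableSet A ∧ g = ind A}, Bd g ∧
      ∀ p, ‖(f - g) p‖ ≤ ε := by
  classical
  obtain ⟨K, hK⟩ := hfB.bdd
  obtain ⟨n, hn⟩ := exists_nat_gt (2 / ε)
  have hn0 : (0 : ℝ) < n := lt_trans (by positivity) hn
  set B : ℤ := ⌈(n : ℝ) * |K|⌉ + 1 with hB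
  set J : Finset (ℤ × ℤ) := Icc (-B) B ×ˢ Icc (-B) B with hJ
  set cell : ℤ × ℤ → Set X := fun c => {p | ⌊(n : ℝ) * (f p).re⌋ = c.1 ∧ ⌊(n : ℝ) * (f p).im⌋ = c.2} with hcell
  set val : ℤ × ℤ → ℂ := fun c => ((c.1 : ℝ) / n : ℝ) + ((c.2 : ℝ) / n : ℝ) * Complex.I with hval
  have hre : Measurable fun p => (f p).re := Complex.measurable_re.comp hfB.meas
  have him : Measurable fun p => (f p).im := Complex.measurable_im.comp hfB.meas
  have hm : ∀ c, MeasurableSet (cell c) := by
    intro c
    have h1 : Measurable fun p => ⌊(n : ℝ) * (f p).re⌋ := (hre.const_mul _).floor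
    have h2 : Measurable fun p => ⌊(n : ℝ) * (f p).im⌋ := (him.const_mul _).floor
    exact (h1 (measurableSet_singleton c.1)).inter (h2 (measurableSet_singleton c.2))
  set g : X → ℂ := ∑ c ∈ J, val c • ind (cell c) with hg
  have hgspan : g ∈ Submodule.span ℂ {g : X → ℂ | ∃ A, MeasurableSet A ∧ g = ind A} :=
    Submodule.sum_mem _ fun c _ => Submodule.smul_mem _ _ (Submodule.subset_span ⟨cell c, hm c, rfl⟩)
  have hgB : Bd g := by
    rw [hg]
    have : ∀ s : Finset (ℤ × ℤ), Bd (∑ c ∈ s, val c • ind (cell c)) := by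
      intro s
      induction s using Finset.induction_on with
      | empty => exact Bd.const (X := X) 0
      | insert a s ha ih => rw [sum_insert ha]; exact ((ind_bd (hm a)).smul _).add ih
    exact this J
  refine ⟨g, hgspan, hgB, fun p => ?_⟩
  set a := ⌊(n : ℝ) * (f p).re⌋ with ha
  set b := ⌊(n : ℝ) * (f p).im⌋ with hb
  have hbound : ∀ t : ℝ, |t| ≤ |K| → ⌊(n : ℝ) * t⌋ ∈ Icc (-B) B := by
    intro t ht
    rw [mem_Icc]
    have h1 : |(n : ℝ) * t| ≤ n * |K| := by
      rw [abs_mul, abs_of_pos hn0]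
      exact mul_le_mul_of_nonneg_left ht hn0.le
    have h2 := Int.le_ceil ((n : ℝ) * |K|)
    have h3 := Int.floor_le ((n : ℝ) * t)
    have h4 := Int.lt_floor_add_one ((n : ℝ) * t)
    have h5 := abs_le.1 h1
    constructor
    · have : ((-B : ℤ) : ℝ) < (⌊(n : ℝ) * t⌋ : ℝ) + 1 := by
        rw [hB]; push_cast; linarith
      have h6 : -B < ⌊(n : ℝ) * t⌋ + 1 := by exact_mod_cast this
      omega
    · have : (⌊(n : ℝ) * t⌋ : ℝ) ≤ ((B : ℤ) : ℝ) := by
        rw [hB]; push_cast; linarith
      exact_mod_cast this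
  have hfK : ‖f p‖ ≤ |K| := (hK p).trans (le_abs_self K)
  have hmem : (a, b) ∈ J := by
    rw [hJ, mem_product]
    exact ⟨hbound _ ((Complex.abs_re_le_norm _).trans hfK), hbound _ ((Complex.abs_im_le_norm _).trans hfK)⟩
  have hgp : g p = val (a, b) := by
    rw [hg, Finset.sum_apply, sum_eq_single (a, b)]
    · rw [Pi.smul_apply, ind, Set.indicator_of_mem (by exact ⟨rfl, rfl⟩)]
      simp
    · intro c _ hc
      rw [Pi.smul_apply, ind, Set.indicator_of_notMem, smul_zero]
      rintro ⟨h1, h2⟩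
      exact hc (Prod.ext h1.symm h2.symm)
    · intro h; exact absurd hmem h
  rw [Pi.sub_apply, hgp]
  have hr : |(f p).re - (a : ℝ) / n| ≤ 1 / n := by
    have h3 := Int.floor_le ((n : ℝ) * (f p).re)
    have h4 := Int.lt_floor_add_one ((n : ℝ) * (f p).re)
    have e : (f p).re - (a : ℝ) / n = ((n : ℝ) * (f p).re - a) / n := by field_simp
    rw [e, abs_div, abs_of_pos hn0]
    apply div_le_div_of_nonneg_right _ hn0.le
    rw [abs_le]; constructor <;> linarith
  have hi : |(f p).im - (b : ℝ) / n| ≤ 1 / n := by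
    have h3 := Int.floor_le ((n : ℝ) * (f p).im)
    have h4 := Int.lt_floor_add_one ((n : ℝ) * (f p).im)
    have e : (f p).im - (b : ℝ) / n = ((n : ℝ) * (f p).im - b) / n := by field_simp
    rw [e, abs_div, abs_of_pos hn0]
    apply div_le_div_of_nonneg_right _ hn0.le
    rw [abs_le]; constructor <;> linarith
  have h1 := Complex.norm_le_abs_re_add_abs_im (f p - val (a, b))
  have e1 : (f p - val (a, b)).re = (f p).re - (a : ℝ) / n := by
    simp only [hval, Complex.sub_re, Complex.add_re, Complex.ofReal_re, Complex.mul_re, Complex.I_re,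
      Complex.ofReal_im, Complex.I_im]
    ring
  have e2 : (f p - val (a, b)).im = (f p).im - (b : ℝ) / n := by
    simp only [hval, Complex.sub_im, Complex.add_im, Complex.ofReal_re, Complex.mul_im, Complex.I_re,
      Complex.ofReal_im, Complex.I_im]
    ring
  rw [e1, e2] at h1
  have h2 : 2 / (n : ℝ) ≤ ε := by
    rw [div_lt_iff₀ hε] at hn
    rw [div_le_iff₀ hn0]
    linarith
  have h3 : 1 / (n : ℝ) + 1 / n = 2 / n := by ring
  linarith

/-- functions orthogonal to the sets of `m` are orthogonal to all `m`-measurable functions -/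
theorem inner_zero {X : Type} {m : MeasurableSpace X} [mX : MeasurableSpace X] {μ : Measure X}
    [IsProbabilityMeasure μ] (hm : m ≤ mX) (G : Lp ℂ 2 μ)
    (hG : AEStronglyMeasurable[m] (G : X → ℂ) μ) {h : X → ℂ} (hh : Bd h)
    (h0 : ∀ B, MeasurableSet[m] B → ∫ p in B, h p ∂μ = 0) :
    inner ℂ G (toL (μ := μ) hh) = 0 := by
  rw [← inner_conj_symm, ← inner_condExpL2_eq_inner_fun hm _ G hG]
  have h3 : (condExpL2 ℂ ℂ hm (toL (μ := μ) hh) : Lp ℂ 2 μ) = 0 := by
    apply Lp.ext
    have h1 := (hh.memLp (μ := μ)).condExpL2_ae_eq_condExp (𝕜 := ℂ) hm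
    have h2 : (0 : X → ℂ) =ᵐ[μ] μ[h | m] :=
      ae_eq_condExp_of_forall_setIntegral_eq hm hh.int (fun s _ _ => integrableOn_zero)
        (fun s hs _ => by simp [h0 s hs]) ⟨0, stronglyMeasurable_zero, EventuallyEq.rfl⟩
    exact (h1.trans h2.symm).trans (Lp.coeFn_zero _ _ _).symm
  rw [h3, inner_zero_left, map_zero]

/-- limits of combinations of invariant functions are invariant -/
theorem inv_closure {X : Type} [MeasurableSpace X] {μ : Measure X} [IsProbabilityMeasure μ]
    {S : X → X} (hS : MeasurePreserving S μ μ) {z : ℝ → X → X}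
    (hE : ∀ g ∈ EigF μ z, (fun p => g (S p)) =ᵐ[μ] g) (G : Lp ℂ 2 μ)
    (hG : G ∈ (Submodule.span ℂ {w : Lp ℂ 2 μ |
      ∃ (g : X → ℂ) (hg : g ∈ EigF μ z), w = toL hg.1}).topologicalClosure) :
    (fun p => G (S p)) =ᵐ[μ] G := by
  let Φ : Lp ℂ 2 μ →ₗᵢ[ℂ] Lp ℂ 2 μ := Lp.compMeasurePreservingₗᵢ ℂ S hS
  have hΦ : ∀ w : Lp ℂ 2 μ, Φ w =ᵐ[μ] fun p => w (S p) := fun w =>
    Lp.coeFn_compMeasurePreserving w hS
  have h1 : Φ G = G := by
    let V : Submodule ℂ (Lp ℂ 2 μ) := LinearMap.eqLocus Φ.toLinearMap LinearMap.id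
    have hV : IsClosed (V : Set (Lp ℂ 2 μ)) := isClosed_eq Φ.continuous continuous_id
    have hle := Submodule.topologicalClosure_minimal (Submodule.span ℂ {w : Lp ℂ 2 μ |
      ∃ (g : X → ℂ) (hg : g ∈ EigF μ z), w = toL hg.1}) (t := V) (Submodule.span_le.2 (by
        rintro w ⟨g, hg, rfl⟩
        show Φ (toL hg.1) = toL hg.1
        apply Lp.ext
        have h2 := hS.quasiMeasurePreserving.ae_eq_comp (toL_coe (μ := μ) hg.1)
        filter_upwards [hΦ (toL hg.1), h2, hE g hg, toL_coe (μ := μ) hg.1] with p g1 g2 g3 g4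
        rw [g1, g4, ← g3]
        exact g2)) hV
    exact hle hG
  have h2 := hΦ G
  rw [h1] at h2
  exact h2.symm

theorem t_RA (hRL : S_RL) (hCE : S_CE) : S_RA := by
  intro X _ μ _ T hT Z ω hω hRF x hx r hr hRS ι₁ ι₂ S₁ S₂ hS₁ hS₂ hE1 hE2 k hmix
  classical
  have hP := act_pw hT
  set S : ι₁ ⊕ ι₂ → X → X := Sum.elim S₁ S₂ with hS
  have hm2 : mS μ S ≤ (inferInstance : MeasurableSpace X) := fun A hA => hA.1
  have hQ : ∀ A, MeasurableSet[mS μ S] A → MeasurableSet A ∧
      ((∀ a, S₁ a ⁻¹' A =ᵐ[μ] A) ∧ ∀ a, S₂ a ⁻¹' A =ᵐ[μ] A) := fun A hA =>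
    ⟨hA.1, fun a => hA.2 (Sum.inl a), fun a => hA.2 (Sum.inr a)⟩
  suffices key : ∀ N, 1 ≤ N → N ≤ k + 1 → MixAll μ (pw T) N from
    gaps_of_mixAll hT (key (k + 1) (by omega) le_rfl)
  intro N hN
  induction N, hN using Nat.le_induction with
  | base => intro _; exact mixAll_one hP
  | succ N hN ih =>
    intro hNk
    have hMA : MixAll μ (pw T) N := ih (by omega)
    intro f hf
    rw [tendsto_iff_ultrafilter]
    intro U hU
    suffices hD : ∀ f : Fin (N + 1) → X → ℂ, (∀ i, f i ∈ {f : X → ℂ | Bd f}) →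
        Def μ (pw T) U f = 0 by
      have h3 := hD f hf
      unfold Def at h3
      rw [← sub_eq_zero.1 h3]
      exact tendsto_L hf
    have hML : ML (Def μ (pw T) U) := ml_def hP
    have hBd : ∀ g : X → ℂ, BdOn (mS μ S) g → Bd g := fun g hg => ⟨hg.1.mono hm2 le_rfl, hg.2⟩
    -- indicator functions of invariant sets
    have D0 : ∀ f : Fin (N + 1) → X → ℂ,
        (∀ i, f i ∈ {g : X → ℂ | ∃ A, MeasurableSet[mS μ S] A ∧ g = ind A}) →
        Def μ (pw T) U f = 0 := by
      intro f hf
      choose A hA hfA using hf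
      have hfe : f = fun i => ind (A i) := funext hfA
      have h3 := (spread_of_gaps hT (mixOn_drop (by simp) (by omega : N ≤ k) hmix) A
        (fun i => hQ (A i) (hA i))).mono_left hU
      unfold Def
      rw [sub_eq_zero, hfe]
      apply L_eq fun i => ind_bd (hA i).1
      simp_rw [C_ind hP fun i => (hA i).1, int_ind (hA _).1]
      have h4 := (Complex.continuous_ofReal.tendsto _).comp h3
      have e : ((∏ i, μ.real (A i) : ℝ) : ℂ) = ∏ i, ((μ.real (A i) : ℝ) : ℂ) := by push_cast; rfl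
      rw [e] at h4
      exact h4
    -- functions measurable with respect to the invariant sets
    have D1 : ∀ f : Fin (N + 1) → X → ℂ, (∀ i, f i ∈ {g : X → ℂ | BdOn (mS μ S) g}) →
        Def μ (pw T) U f = 0 := by
      apply upgrade hML _ _ (by rintro f ⟨A, hA, rfl⟩; exact ind_bd hA.1) (fun f hf => hBd f hf) _ D0
      intro f hf η hη
      obtain ⟨g, hg, -, hfg⟩ := @approx X (mS μ S) f
        (@Bd.mk X (mS μ S) f hf.1 hf.2) (η / 2) (by positivity)
      have hgB : Bd g := by
        have h1 : ∀ g ∈ Submodule.span ℂ {g : X → ℂ | ∃ A, MeasurableSet[mS μ S] A ∧ g = ind A},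
            Bd g := by
          intro g hg
          induction hg using Submodule.span_induction with
          | mem w hw => obtain ⟨A, hA, rfl⟩ := hw; exact ind_bd hA.1
          | zero => exact Bd.const 0
          | add a b _ _ ha hb => exact ha.add hb
          | smul c a _ ha => exact ha.smul c
        exact h1 g hg
      refine ⟨g, hg, fun K hK1 F hF hFK j => ?_⟩
      have hh : Bd (f - g) := (hBd f hf).sub hgB
      unfold Def
      refine (norm_sub_le _ _).trans ?_
      have h3 := L_update_le hP hF K hK1 hFK j hh (η / 2) hfg (U := U)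
      have h4 := prod_update_le (μ := μ) K hK1 hFK j (f - g)
      have h5 : ‖∫ p, (f - g) p ∂μ‖ ≤ η / 2 := norm_int_le _ hfg
      have h6 : K ^ (N + 1) ≤ K ^ (N + 1 + 1) := pow_le_pow_right₀ hK1 (by omega)
      have h7 : 0 ≤ K ^ (N + 1) := by positivity
      have h8 : K ^ (N + 1) * ‖∫ p, (f - g) p ∂μ‖ ≤ K ^ (N + 1) * (η / 2) :=
        mul_le_mul_of_nonneg_left h5 h7
      nlinarith
    apply upgrade hML {g | BdOn (mS μ S) g} _ (fun f hf => hBd f hf) (fun f hf => hf) _ D1
    intro f hf η hη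
    obtain ⟨g, hg, hfg⟩ := hCE X (mS μ S) μ hm2 f hf
    refine ⟨g, Submodule.subset_span hg, fun K hK1 F hF hFK j => ?_⟩
    have hh : Bd (f - g) := Bd.sub hf (hBd g hg)
    have e1 : ∫ p, (f - g) p ∂μ = 0 := by
      have := hfg Set.univ MeasurableSet.univ
      rw [Measure.restrict_univ] at this
      exact this
    obtain ⟨G, hG1, -, hG3⟩ := hRL X μ T hT Z ω hω hRF x hx r hr hRS N hN hMA U hU j F hF
    have e2 : L μ (pw T) U (Function.update F j (f - g)) = 0 := by
      rw [hG1 (f - g) hh]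
      have hGi : ∀ a, (fun p => G (S a p)) =ᵐ[μ] G := by
        rintro (a | a)
        · exact inv_closure (hS₁ a) (fun g hg => hE1 g hg a) G (hG3 1)
        · exact inv_closure (hS₂ a) (fun g hg => hE2 g hg a) G (hG3 Complex.I)
      have hGm : Measurable[mS μ S] (G : X → ℂ) := by
        intro E hE
        refine ⟨(Lp.stronglyMeasurable G).measurable hE, fun a => ?_⟩
        rw [eventuallyEq_set]
        filter_upwards [hGi a] with p hp
        simp only [Set.mem_preimage]
        rw [hp]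
      exact inner_zero hm2 G ⟨G, hGm.stronglyMeasurable, EventuallyEq.rfl⟩ hh
        (fun B hB => hfg B hB)
    unfold Def
    rw [e2, prod_eq_zero (mem_univ j) (by rw [Function.update_self]; exact e1), sub_zero, norm_zero]
    positivity

end Pool.Agent.W191.LY
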